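import Pool.Agent.R489.HB.Stm

/-!
# Splitting a triangulated sphere at a separating triangle: vertices and edges (SPLB)
-/

set_option autoImplicit false

namespace Pool.Agent.R293.HB

open Finset Pool.Agent.R489.HB

variable {W : Type} [DecidableEq W]

lemma mem_edg' {Φ : Finset (Finset W)} {e : Finset W} :
    e ∈ edg Φ ↔ ∃ f ∈ Φ, e ⊆ f ∧ e.card = 2 := by
  simp [edg, Finset.mem_powersetCard]

lemma mem_vts' {Φ : Finset (Finset W)} {x : W} : x ∈ vts Φ ↔ ∃ f ∈ Φ, x ∈ f := by
  simp [vts]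

lemma mem_fc' {Φ : Finset (Finset W)} {e f : Finset W} : f ∈ fc Φ e ↔ f ∈ Φ ∧ e ⊆ f := by
  simp [fc]

lemma splb_edge {Φ1 : Finset (Finset W)} {T' : Finset W}
    (one1 : ∀ e ∈ T'.powersetCard 2, (fc Φ1 e).card = 1) :
    T'.powersetCard 2 ⊆ edg Φ1 := by
  intro e he
  have h1 := one1 e he
  have hne : (fc Φ1 e).Nonempty := by
    rw [← Finset.card_pos, h1]; exact Nat.one_pos
  obtain ⟨f, hf⟩ := hne
  rw [mem_fc'] at hf
  exact mem_edg'.2 ⟨f, hf.1, hf.2, (Finset.mem_powersetCard.1 he).2⟩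

lemma splb_vert {Φ1 : Finset (Finset W)} {T' : Finset W} (hT : T'.card = 3)
    (one1 : ∀ e ∈ T'.powersetCard 2, (fc Φ1 e).card = 1) :
    T' ⊆ vts Φ1 := by
  intro x hx
  obtain ⟨y, hy, hyx⟩ : ∃ y ∈ T', y ≠ x :=
    Finset.exists_mem_ne (by omega) x
  have he : ({x, y} : Finset W) ∈ T'.powersetCard 2 := by
    rw [Finset.mem_powersetCard]
    refine ⟨?_, Finset.card_pair (Ne.symm hyx)⟩
    intro z hz
    rw [Finset.mem_insert, Finset.mem_singleton] at hz
    rcases hz with rfl | rfl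
    · exact hx
    · exact hy
  obtain ⟨f, hf, hef, -⟩ := mem_edg'.1 (splb_edge one1 he)
  exact mem_vts'.2 ⟨f, hf, hef (Finset.mem_insert_self _ _)⟩

theorem SPLB : Pool.Agent.R489.HB.S_SPLB := by
  intro W _ Φ Φ1 Φ2 T' hΦ hT hTΦ hTe hS
  have h1Φ : Φ1 ⊆ Φ := by rw [← hS.uni]; exact Finset.subset_union_left
  have h2Φ : Φ2 ⊆ Φ := by rw [← hS.uni]; exact Finset.subset_union_right
  have hE1 : T'.powersetCard 2 ⊆ edg Φ1 := splb_edge hS.one1
  have hE2 : T'.powersetCard 2 ⊆ edg Φ2 := splb_edge hS.one2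
  have hV1 : T' ⊆ vts Φ1 := splb_vert hT hS.one1
  have hV2 : T' ⊆ vts Φ2 := splb_vert hT hS.one2
  have hD : vts Φ1 ∩ vts Φ2 = T' := by
    apply Finset.Subset.antisymm
    · intro x hx
      rw [Finset.mem_inter] at hx
      by_contra hxT
      obtain ⟨hx1, hx2⟩ := hx
      obtain ⟨f1, hf1, hxf1⟩ := mem_vts'.1 hx1
      obtain ⟨f2, hf2, hxf2⟩ := mem_vts'.1 hx2
      have hsub : fc Φ1 {x} ⊆ fc Φ {x} := by
        intro f hf
        rw [mem_fc'] at hf ⊢
        exact ⟨h1Φ hf.1, hf.2⟩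
      have hev : ∀ e ∈ edg Φ, x ∈ e → Even (fc (fc Φ1 {x}) e).card := by
        intro e he hxe
        have heT : e ∉ T'.powersetCard 2 := by
          intro h
          exact hxT ((Finset.mem_powersetCard.1 h).1 hxe)
        have heq : fc (fc Φ1 {x}) e = fc Φ1 e := by
          ext f
          rw [mem_fc', mem_fc', mem_fc']
          constructor
          · rintro ⟨⟨h1, -⟩, h2⟩
            exact ⟨h1, h2⟩
          · rintro ⟨h1, h2⟩
            exact ⟨⟨h1, Finset.singleton_subset_iff.2 (h2 hxe)⟩, h2⟩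
        rw [heq]
        rcases hS.side e he heT with h | h
        · rw [h]; simp
        · have h3 : fc Φ e = fc Φ1 e := by
            ext f
            rw [mem_fc', mem_fc']
            constructor
            · rintro ⟨h1, h2⟩
              rw [← hS.uni, Finset.mem_union] at h1
              rcases h1 with h1 | h1
              · exact ⟨h1, h2⟩
              · exfalso
                have : f ∈ fc Φ2 e := mem_fc'.2 ⟨h1, h2⟩
                rw [h] at this
                exact absurd this (Finset.notMem_empty _)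
            · rintro ⟨h1, h2⟩
              exact ⟨h1Φ h1, h2⟩
          rw [← h3, hΦ.two e he]
          exact ⟨1, rfl⟩
      rcases hΦ.link x (fc Φ1 {x}) hsub hev with h | h
      · have : f1 ∈ fc Φ1 {x} := mem_fc'.2 ⟨hf1, Finset.singleton_subset_iff.2 hxf1⟩
        rw [h] at this
        exact absurd this (Finset.notMem_empty _)
      · have : f2 ∈ fc Φ {x} := mem_fc'.2 ⟨h2Φ hf2, Finset.singleton_subset_iff.2 hxf2⟩
        rw [← h] at this
        exact (Finset.disjoint_left.1 hS.dis) (mem_fc'.1 this).1 hf2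
    · exact Finset.subset_inter hV1 hV2
  have hVi : vts (insert T' Φ1) = vts Φ1 := by
    unfold vts at hV1 ⊢
    rw [Finset.biUnion_insert]
    exact Finset.union_eq_right.2 hV1
  refine ⟨hD, ?_, ?_, hVi, ?_⟩
  · apply Finset.Subset.antisymm
    · intro e he
      rw [Finset.mem_inter] at he
      obtain ⟨f1, hf1, hef1, hc⟩ := mem_edg'.1 he.1
      obtain ⟨f2, hf2, hef2, -⟩ := mem_edg'.1 he.2
      by_contra hne
      rcases hS.side e (mem_edg'.2 ⟨f1, h1Φ hf1, hef1, hc⟩) hne with h | h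
      · have : f1 ∈ fc Φ1 e := mem_fc'.2 ⟨hf1, hef1⟩
        rw [h] at this
        exact absurd this (Finset.notMem_empty _)
      · have : f2 ∈ fc Φ2 e := mem_fc'.2 ⟨hf2, hef2⟩
        rw [h] at this
        exact absurd this (Finset.notMem_empty _)
    · exact Finset.subset_inter hE1 hE2
  · unfold edg at hE1 ⊢
    rw [Finset.biUnion_insert]
    exact Finset.union_eq_right.2 hE1
  · rw [hVi]
    apply Finset.card_lt_card
    rw [Finset.ssubset_iff_of_subset]
    · obtain ⟨x, hx⟩ : T'.Nonempty := by rw [← Finset.card_pos, hT]; norm_num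
      obtain ⟨f, hf, -⟩ := mem_vts'.1 (hV2 hx)
      have hf3 := hΦ.three f (h2Φ hf)
      have hfT : ¬ f ⊆ T' := by
        intro h
        have := Finset.eq_of_subset_of_card_le h (by rw [hT, hf3])
        exact hTΦ (this ▸ h2Φ hf)
      obtain ⟨z, hz, hzT⟩ := Finset.not_subset.1 hfT
      refine ⟨z, mem_vts'.2 ⟨f, h2Φ hf, hz⟩, ?_⟩
      intro hz1
      apply hzT
      rw [← hD, Finset.mem_inter]
      exact ⟨hz1, mem_vts'.2 ⟨f, hf, hz⟩⟩
    · intro x hx
      obtain ⟨f, hf, hxf⟩ := mem_vts'.1 hx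
      exact mem_vts'.2 ⟨f, h1Φ hf, hxf⟩

end Pool.Agent.R293.HB
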